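import Mathlib
import Pool.Agent.H57.Circ

namespace Pool.Agent.Results.MP_e1bcf3_nt.Holds

/-- For every odd prime p, twice the permanent of the p by p matrix of |j - k| + delta, minus one,
is divisible by p. -/
theorem result : ∀ p : ℕ, p.Prime → p ≠ 2 →
    (p : ℤ) ∣ 2 * (Matrix.of fun j k : Fin p =>
      |(((j : ℕ) : ℤ) + 1) - (((k : ℕ) : ℤ) + 1)| + if j = k then 1 else 0).permanent - 1 := by
  intro p hp h2
  have := Fact.mk hp
  have h := Pool.Agent.H57.Circ.abs_fin h2 1
  simp only [add_sub_add_right_eq_sub]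
  simpa [show (2:ℤ) - 1 = 1 by norm_num] using h

end Pool.Agent.Results.MP_e1bcf3_nt.Holds
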